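import Pool.Agent.H71.ASF.Stmts

/-!
# Module WCO of project ASF (MP_8ae111_al): `Σ [D_{12} x, D_{34} y] = 0` when `nu = 0`
-/

universe u

namespace ASF

theorem wco (h1 : WX0Stmt.{u}) : WCOStmt.{u} := by
  intro A _ _ _ B hB b1 m1 b2 m2 b3 m3 b4 m4 x y
  have hT := hB.t m1 m2 m3
  have z12 := hB.n _ m1 _ m2
  have z21 := hB.n _ m2 _ m1
  have z23 := hB.n _ m2 _ m3
  have z32 := hB.n _ m3 _ m2
  have z31 := hB.n _ m3 _ m1
  have z13 := hB.n _ m1 _ m3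
  have z14 := hB.n _ m1 _ m4
  have z41 := hB.n _ m4 _ m1
  have z24 := hB.n _ m2 _ m4
  have z42 := hB.n _ m4 _ m2
  have z34 := hB.n _ m3 _ m4
  have z43 := hB.n _ m4 _ m3
  -- `[b, y b4] = [b,y] b4 + 3 D_{b4} y`
  have r : ∀ b ∈ B, cm b (y * b4) = cm b y * b4 + 3 • dl b b4 y := by
    intro b hb
    have e := cm_mul y b4 b
    have e1 : cm b b4 = 0 := by rw [cm, hB.n _ hb _ m4, hB.n _ m4 _ hb, sub_zero]
    have e2 : asc y b4 b = - dl b b4 y := by rw [dl, asc_s23 y b b4]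
    rw [e, e1, e2, mul_zero, add_zero, smul_neg, sub_neg_eq_add]
  have l : ∀ b ∈ B, cm b (b4 * y) = b4 * cm b y - 3 • dl b b4 y := by
    intro b hb
    have e := cm_mul b4 y b
    have e1 : cm b b4 = 0 := by rw [cm, hB.n _ hb _ m4, hB.n _ m4 _ hb, sub_zero]
    have e2 : asc b4 y b = dl b b4 y := by rw [dl, asc_cyc' y b b4]
    rw [e, e1, e2, zero_mul, zero_add]
  -- the first identity
  have q1 := hT.z x (y * b4)
  have q2 := hT.z x (b4 * y)
  have q3 := hT.z (cm x b4) y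
  have nn := hT.z x y
  have xx := h1 A b1 b2 b3 hT x y b4
  simp only [nu] at q1 q2 q3 nn
  simp only [XX] at xx
  rw [r b3 m3, r b1 m1, r b2 m2] at q1
  rw [l b3 m3, l b1 m1, l b2 m2] at q2
  have d : ∀ b ∈ B, ∀ c ∈ B, dl b c (cm x b4) = cm (dl b c x) b4 := by
    intro b hb c hc
    rw [(dl_isDer (hB.n _ hb _ hc) (hB.n _ hc _ hb)).cm, dl_null (hB.n _ m4 _ hb) (hB.n _ hb _ hc),
      cm_zero2, add_zero]
  rw [d b1 m1 b2 m2, d b2 m2 b3 m3, d b3 m3 b1 m1] at q3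
  -- expansions
  have f : ∀ p c : A, cm p (c * b4 ) = cm p c * b4 + c * cm p b4 - 3 • asc p c b4 := by
    intro p c
    rw [cm_mul c b4 p, asc_cyc' c b4 p |>.symm]
  have g : ∀ p c : A, cm p (b4 * c) = cm p b4 * c + b4 * cm p c + 3 • asc p c b4 := by
    intro p c
    have e : asc b4 c p = - asc p c b4 := by rw [asc_s13 p c b4]
    rw [cm_mul b4 c p, e, smul_neg, sub_neg_eq_add]
  simp only [cm_add2, cm_sub2, cm_nsmul2] at q1 q2
  rw [f, f, f] at q1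
  rw [g, g, g] at q2
  have nr : cm (dl b1 b2 x) (cm b3 y) * b4 + cm (dl b2 b3 x) (cm b1 y) * b4
      + cm (dl b3 b1 x) (cm b2 y) * b4 = 0 := by rw [← add_mul, ← add_mul, nn, zero_mul]
  have nl : b4 * cm (dl b1 b2 x) (cm b3 y) + b4 * cm (dl b2 b3 x) (cm b1 y)
      + b4 * cm (dl b3 b1 x) (cm b2 y) = 0 := by rw [← mul_add, ← mul_add, nn, mul_zero]
  have s : ∀ p q : A, cm p q = p * q - q * p := fun _ _ => rfl
  rw [s (cm (dl b1 b2 x) b4), s (cm (dl b2 b3 x) b4), s (cm (dl b3 b1 x) b4)] at q3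
  apply c6
  linear_combination (norm := skip) q1 - q2 + q3 - nr + nl + (6 : ℤ) • xx
  simp only [smul_add, smul_zero]
  abel

end ASF
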