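import Pool.Agent.H71.ASF.Stmts

/-!
# Module WJO of project ASF (MP_8ae111_al): `Σ D_{12} x ∘ D_{34} y = 0` when `nu = 0`
-/

universe u

namespace ASF

theorem wjo (h1 : WPHStmt.{u}) : WJOStmt.{u} := by
  intro A _ _ _ B hB b1 m1 b2 m2 b3 m3 b4 m4 x y
  have hT := hB.t m1 m2 m3
  have cz : ∀ b ∈ B, cm b b4 = 0 := by
    intro b hb
    rw [cm, hB.n _ hb _ m4, hB.n _ m4 _ hb, sub_zero]
  have jz : ∀ v : A, jo v 0 = 0 := by intro v; simp [jo]
  have jz' : ∀ v : A, jo 0 v = 0 := by intro v; simp [jo]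
  have jneg : ∀ v w : A, jo v (-w) = - jo v w := by intro v w; simp only [jo, mul_neg, neg_mul]; abel
  have jneg' : ∀ v w : A, jo (-v) w = - jo v w := by
    intro v w; simp only [jo, mul_neg, neg_mul]; abel
  have dj : ∀ b ∈ B, ∀ c ∈ B, ∀ v : A, dl b c (jo v b4) = jo (dl b c v) b4 := by
    intro b hb c hc v
    rw [(dl_isDer (hB.n _ hb _ hc) (hB.n _ hc _ hb)).jo, dl_null (hB.n _ m4 _ hb) (hB.n _ hb _ hc),
      jz, add_zero]
  have dc : ∀ b ∈ B, ∀ c ∈ B, ∀ v : A, dl b c (cm b4 v) = cm b4 (dl b c v) := by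
    intro b hb c hc v
    rw [(dl_isDer (hB.n _ hb _ hc) (hB.n _ hc _ hb)).cm, dl_null (hB.n _ m4 _ hb) (hB.n _ hb _ hc),
      cm_zero1, zero_add]
  -- P is symmetric
  have P : ∀ v w : A, jo (dl b1 b2 v) (cm b3 w) + jo (dl b2 b3 v) (cm b1 w)
      + jo (dl b3 b1 v) (cm b2 w) = jo (dl b1 b2 w) (cm b3 v) + jo (dl b2 b3 w) (cm b1 v)
      + jo (dl b3 b1 w) (cm b2 v) := by
    intro v w
    have n1 := hT.z v w
    have n2 := hT.z w v
    have e := h1 A b1 b2 b3 hT.n v w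
    simp only [nu] at n1 n2
    have s : ∀ p q : A, cm p q = p * q - q * p := fun _ _ => rfl
    have s' : ∀ p q : A, jo p q = p * q + q * p := fun _ _ => rfl
    rw [s (dl b1 b2 v), s (dl b2 b3 v), s (dl b3 b1 v)] at n1
    rw [s (dl b1 b2 w), s (dl b2 b3 w), s (dl b3 b1 w)] at n2
    simp only [s']
    linear_combination (norm := abel) n1 - n2 + (2 : ℤ) • e
  -- (L2)
  have L2 : ∀ v w : A, jo (cm b3 w) (cm (dl b1 b2 v) b4) + jo (cm b1 w) (cm (dl b2 b3 v) b4)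
      + jo (cm b2 w) (cm (dl b3 b1 v) b4) = 0 := by
    intro v w
    have q := hT.z v (jo w b4)
    have nn := hT.z v w
    simp only [nu] at q nn
    have e : ∀ b ∈ B, cm b (jo w b4) = jo b4 (cm b w) := by
      intro b hb
      rw [cm_jo', cz b hb, jz, zero_add]
    rw [e b3 m3, e b1 m1, e b2 m2, cm_jo', cm_jo', cm_jo'] at q
    have nj : jo b4 (cm (dl b1 b2 v) (cm b3 w)) + jo b4 (cm (dl b2 b3 v) (cm b1 w))
        + jo b4 (cm (dl b3 b1 v) (cm b2 w)) = 0 := by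
      rw [← jo_add2, ← jo_add2, nn, jz]
    linear_combination (norm := abel) q - nj
  -- (J)
  have J : jo (dl b1 b2 x) (cm b4 (cm b3 y)) + jo (dl b2 b3 x) (cm b4 (cm b1 y))
      + jo (dl b3 b1 x) (cm b4 (cm b2 y)) = 0 := by
    have q := hT.z (jo x b4) y
    have nn := hT.z x y
    simp only [nu] at q nn
    rw [dj b1 m1 b2 m2, dj b2 m2 b3 m3, dj b3 m3 b1 m1, cm_jo, cm_jo, cm_jo] at q
    have nj : jo b4 (cm (dl b1 b2 x) (cm b3 y)) + jo b4 (cm (dl b2 b3 x) (cm b1 y))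
        + jo b4 (cm (dl b3 b1 x) (cm b2 y)) = 0 := by
      rw [← jo_add2, ← jo_add2, nn, jz]
    linear_combination (norm := abel) q - nj
  -- P(x,[b4,y]) = P([b4,y],x) = 0
  have K := P x (cm b4 y)
  rw [dc b1 m1 b2 m2, dc b2 m2 b3 m3, dc b3 m3 b1 m1] at K
  have K2 := L2 y x
  rw [jo_swap (cm (dl b1 b2 y) b4), jo_swap (cm (dl b2 b3 y) b4), jo_swap (cm (dl b3 b1 y) b4),
    cm_swap b4 (dl b1 b2 y), cm_swap b4 (dl b2 b3 y), cm_swap b4 (dl b3 b1 y),
    jneg', jneg', jneg'] at K2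
  have C : ∀ b ∈ B, cm b (cm b4 y) = cm b4 (cm b y) - 6 • dl b b4 y := by
    intro b hb
    have e := cmcm (cz b hb) y
    linear_combination (norm := abel) e
  have js : ∀ v w t : A, jo v (w - 6 • t) = jo v w - 6 • jo v t := by
    intro v w t
    simp only [jo, mul_sub, sub_mul, mul_smul_comm, smul_mul_assoc, smul_add]; abel
  rw [C b3 m3, C b1 m1, C b2 m2, js, js, js] at K
  apply c6
  linear_combination (norm := skip) J - K + K2
  simp only [smul_add]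
  abel

end ASF
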