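import Pool.Agent.H71.ASF.Stmts

/-!
# Module WX0 of project ASF (MP_8ae111_al): `X = 0` when `nu = 0`
-/

universe u

namespace ASF

theorem wx0 (h1 : WR7Stmt.{u}) (h2 : WE1Stmt.{u}) (h3 : WABStmt.{u}) (h4 : WP2Stmt.{u}) :
    WX0Stmt.{u} := by
  intro A _ _ _ b1 b2 b3 hT x y z
  have key : ∀ x y z : A, ww b1 b2 b3 x y z = 0 := by
    intro x y z
    have e1 := h2 A b1 b2 b3 hT x y z
    have e2 := (h3 A b1 b2 b3 hT y z x).1
    have e3 := h2 A b1 b2 b3 hT z x y
    have e4 := (h3 A b1 b2 b3 hT x y z).2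
    have e5 := (h1 A b1 b2 b3 hT x y z).1
    rw [e5] at e2
    apply c6
    rw [← e4]
    simp only [smul_neg] at e2
    linear_combination (norm := abel) -e1 - e2 - e3
  have k : ∀ x y z : A, XX b1 b2 b3 x y z + XX b1 b2 b3 y z x = 0 := by
    intro x y z
    rw [← h4 A b1 b2 b3 hT x y z, key]
  have k1 := k x y z
  have k2 := k y z x
  have k3 := k z x y
  apply c2
  rw [two_nsmul]
  linear_combination (norm := abel) k1 - k2 + k3

end ASF
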